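import Pool.Agent.H207R2.BL.Woodall
import Pool.Agent.H207R2.BL.Plane
import Pool.Agent.Helper479.Bond.VK

/-!
Root-free interval below five for planar graphs: definitions and statements of the parts.
-/

set_option autoImplicit false

namespace Pool.Agent.Y865.RF

open Polynomial Pool.Agent.H207R2.BL

/-- `u` and `v` are joined by a walk of `G` inside the set `S` of vertices. -/
def Cn {V : Type} (G : SimpleGraph V) (S : Set V) (u v : V) : Prop :=
  ∃ w : G.Walk u v, ∀ z ∈ w.support, z ∈ S

/-- Weak `K₅`: five vertices joined pairwise by walks, walks belonging to disjoint pairs being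
vertex-disjoint. (Every graph with a `K₅` minor has it, no planar graph has it.) -/
def WK (V : Type) (G : SimpleGraph V) : Prop :=
  ∃ (x : Fin 5 → V) (A : Fin 5 → Fin 5 → Set V),
    (∀ a b, a < b → Cn G (A a b) (x a) (x b)) ∧
    (∀ a b c d, a < b → c < d → a ≠ c → a ≠ d → b ≠ c → b ≠ d → Disjoint (A a b) (A c d))

/-- planar graphs have no weak `K₅` (van Kampen) -/
def S_PL : Prop := ∀ (V : Type) (G : SimpleGraph V) (f : V → ℝ × ℝ) (γ : V → V → ℝ → ℝ × ℝ),
  IsDrawing G f γ → ¬ WK V G

/-- the class of graphs without weak `K₅` is closed under minors -/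
def S_MC : Prop := MinorClosed (fun V G => ¬ WK V G)

/-- a graph without weak `K₅` has a vertex of degree at most five (Mader) -/
def S_DEG : Prop := ∀ (V : Type) [Finite V] [Nonempty V] (G : SimpleGraph V), ¬ WK V G →
  ∃ v, (G.neighborSet v).ncard ≤ 5

/-- Kempe: if `v` has degree five, the number of proper 5-colourings of `G - v` is at most twice
the number of proper 5-colourings of `G`. -/
def S_KEMPE : Prop := ∀ (V : Type) [Finite V] (G : SimpleGraph V) (v : V), ¬ WK V G →
  (G.neighborSet v).ncard = 5 →
  Nat.card {g : {x : V // x ≠ v} → Fin 5 // Proper (G.comap Subtype.val) g} ≤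
    2 * Nat.card {g : V → Fin 5 // Proper G g}

/-- expansion of the chromatic polynomial at a vertex `v` of degree `d`: the remainder `D` is a sum
of chromatic polynomials of graphs of the class with two vertices less (`Good` is any property of
polynomials which holds for these and is closed under addition). -/
def S_EXP : Prop := ∀ (𝒞 : ∀ V : Type, SimpleGraph V → Prop), MinorClosed 𝒞 →
  ∀ (V : Type) [Finite V] (G : SimpleGraph V) (v : V), 𝒞 V G → ∀ (Good : ℝ[X] → Prop), Good 0 →
    (∀ a b, Good a → Good b → Good (a + b)) →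
    (∀ (w : {x : V // x ≠ v}) (M : SimpleGraph {x : {x : V // x ≠ v} // x ≠ w}), 𝒞 _ M →
      Good (chr M)) →
    ∃ D : ℝ[X], Good D ∧
      chr G = (X - C ((G.neighborSet v).ncard : ℝ)) * chr (G.comap (Subtype.val : {x : V // x ≠ v} → V)) + D

end Pool.Agent.Y865.RF
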