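import Pool.Agent.Y865.RF.Cpx
import Pool.Agent.Y655.RF.Deg
import Pool.Agent.Y708.RF.Kempe

/-!
Final assembly.
-/

set_option autoImplicit false
set_option linter.unusedSectionVars false

namespace Pool.Agent.Y865.RF

open Polynomial Pool.Agent.H207R2.BL

theorem t_deg : S_DEG := Pool.Agent.Y655.RF.t_DEG
theorem t_kempe : S_KEMPE := Pool.Agent.Y708.RF.kempe

theorem ratio_le {V : Type} [Finite V] (G : SimpleGraph V) (hG : ¬ WK V G) (v : V)
    (hv : (G.neighborSet v).ncard ≤ 5) :
    (chr (G.comap (Subtype.val : {x : V // x ≠ v} → V))).eval 5 ≤ 2 * (chr G).eval 5 := by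
  rcases lt_or_eq_of_le hv with hlt | heq
  · have hHW : ¬ WK _ (G.comap (Subtype.val : {x : V // x ≠ v} → V)) := mc.vertex V G v hG
    have hH5 := five_pos t_kempe t_deg _ hHW
    obtain ⟨D, hD, hGD⟩ := exp_at (fun V G => ¬ WK V G) mc V G v hG (fun p => 0 ≤ p.eval 5)
      (by simp) (by
        intro a b ha hb
        rw [eval_add]
        exact add_nonneg ha hb)
      (by
        intro w M hM
        exact (five_pos t_kempe t_deg M hM).le)
    have e5 : (chr G).eval 5 = (5 - ((G.neighborSet v).ncard : ℝ)) *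
        (chr (G.comap (Subtype.val : {x : V // x ≠ v} → V))).eval 5 + D.eval 5 := by
      rw [hGD, eval_add, eval_mul, eval_sub, eval_X, eval_C]
    have hd4 : ((G.neighborSet v).ncard : ℝ) ≤ 4 := by
      have : (G.neighborSet v).ncard ≤ 4 := by omega
      exact_mod_cast this
    nlinarith
  · exact kempe_eval t_kempe G v hG heq

theorem final {V : Type} [Finite V] (G : SimpleGraph V) (hG : ¬ WK V G) (p : ℝ[X])
    (hp : ∀ k : ℕ, p.eval (k : ℝ) = (Nat.card (G.Coloring (Fin k)) : ℝ)) :
    (∀ q : ℝ, 5 - 1 / (Nat.card V : ℝ) < q → 0 < p.eval q) ∧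
    (∀ q : ℝ, 5 - 1 / (Nat.card V : ℝ) ≤ q → q ≤ 5 →
      (1 - Nat.card V * (5 - q)) * p.eval 5 ≤ p.eval q ∧ p.eval q ≤ p.eval 5) ∧
    (∀ z : ℂ, ‖z - 5‖ < Real.log 2 / (Nat.card V : ℝ) → aeval z p ≠ 0) ∧
    (∀ v : V, (G.neighborSet v).ncard ≤ 5 →
      Nat.card ((G.comap (Subtype.val : {x : V // x ≠ v} → V)).Coloring (Fin 5)) ≤
        2 * Nat.card (G.Coloring (Fin 5))) := by
  have hpc : p = chr G := eq_chr hp
  subst hpc
  have key : ∀ q : ℝ, 5 - 1 / (Nat.card V : ℝ) ≤ q → q ≤ 5 →
      (1 - Nat.card V * (5 - q)) * (chr G).eval 5 ≤ (chr G).eval q ∧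
        (chr G).eval q ≤ (chr G).eval 5 := by
    intro q h1 h2
    have h3 := (real_main t_kempe t_deg (5 - q) (by linarith) _ V G rfl hG).2 (by
      rcases Nat.eq_zero_or_pos (Nat.card V) with h | h
      · rw [h]
        simp
      · have hc : (0 : ℝ) < Nat.card V := by exact_mod_cast h
        have h4 : 5 - q ≤ 1 / (Nat.card V : ℝ) := by linarith
        rw [le_div_iff₀ hc] at h4
        linarith)
    have h5 : (5 : ℝ) - (5 - q) = q := by ring
    rw [h5] at h3
    exact h3
  refine ⟨?_, key, ?_, ?_⟩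
  · intro q hq
    have h5 := five_pos t_kempe t_deg G hG
    rcases lt_trichotomy q 5 with h | h | h
    · have h1 := (key q hq.le h.le).1
      have h2 : 0 < 1 - Nat.card V * (5 - q) := by
        rcases Nat.eq_zero_or_pos (Nat.card V) with h0 | h0
        · rw [h0]
          simp
        · have hc : (0 : ℝ) < Nat.card V := by exact_mod_cast h0
          have h4 : 5 - q < 1 / (Nat.card V : ℝ) := by linarith
          rw [lt_div_iff₀ hc] at h4
          linarith
      have h3 := mul_pos h2 h5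
      linarith
    · rw [h]
      exact h5
    · exact minor_pos (fun V G => ¬ WK V G) mc 5 (fun V _ _ G hG => t_deg V G hG) q
        (by exact_mod_cast h) G hG
  · intro z hz
    exact cpx_ne t_kempe t_deg G hG z hz
  · intro v hv
    have h := ratio_le G hG v hv
    have h1 := chr_spec G 5
    have h2 := chr_spec (G.comap (Subtype.val : {x : V // x ≠ v} → V)) 5
    rw [Nat.cast_ofNat] at h1 h2
    rw [h1, h2] at h
    exact_mod_cast h

end Pool.Agent.Y865.RF
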