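import Pool.Agent.Y865.RF.Real

/-!
Complex values near five.
-/

set_option autoImplicit false
set_option linter.unusedSectionVars false

namespace Pool.Agent.Y865.RF

open Polynomial Pool.Agent.H207R2.BL

theorem five_pos (hk : S_KEMPE) (hd : S_DEG) {V : Type} [Finite V] (G : SimpleGraph V)
    (hG : ¬ WK V G) : 0 < (chr G).eval 5 :=
  (real_main hk hd 0 le_rfl _ V G rfl hG).1

theorem cpx_main (hk : S_KEMPE) (hd : S_DEG) (z : ℂ) (x : ℝ) (hx1 : 1 + ‖z - 5‖ ≤ x)
    (hx2 : 1 + 2 * ‖z - 5‖ * x ≤ x ^ 2) :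
    ∀ (n : ℕ) (V : Type) [Finite V] (G : SimpleGraph V), Nat.card V = n → ¬ WK V G →
      ‖aeval z (chr G) - (((chr G).eval 5 : ℝ) : ℂ)‖ ≤ (x ^ n - 1) * (chr G).eval 5 := by
  have hδ : 0 ≤ ‖z - 5‖ := norm_nonneg _
  have hx : 1 ≤ x := by linarith
  intro n
  induction n using Nat.strong_induction_on with
  | _ n ih =>
    intro V _ G hn hG
    rcases isEmpty_or_nonempty V with he | hne
    · rw [chr_empty]
      have h0 : n = 0 := by
        rw [← hn]
        exact Nat.card_of_isEmpty
      subst h0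
      simp
    · obtain ⟨v, hv⟩ := hd V G hG
      have hc := card_sub v
      have hn1 : 1 ≤ n := by omega
      set H : SimpleGraph {x : V // x ≠ v} := G.comap Subtype.val with hH
      have hHW : ¬ WK _ H := mc.vertex V G v hG
      have hH5 := five_pos hk hd H hHW
      have hHz := ih (n - 1) (by omega) _ H (by omega) hHW
      obtain ⟨D, hD, hGD⟩ := exp_at (fun V G => ¬ WK V G) mc V G v hG
        (fun p => 0 ≤ p.eval 5 ∧ ‖aeval z p - ((p.eval 5 : ℝ) : ℂ)‖ ≤ (x ^ (n - 2) - 1) * p.eval 5)
        (by simp)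
        (by
          rintro a b ⟨ha, ha'⟩ ⟨hb, hb'⟩
          refine ⟨by rw [eval_add]; exact add_nonneg ha hb, ?_⟩
          rw [map_add, eval_add]
          push_cast
          have : aeval z a + aeval z b - (((a.eval 5 : ℝ) : ℂ) + ((b.eval 5 : ℝ) : ℂ)) =
              (aeval z a - ((a.eval 5 : ℝ) : ℂ)) + (aeval z b - ((b.eval 5 : ℝ) : ℂ)) := by ring
          rw [this]
          refine (norm_add_le _ _).trans ?_
          rw [mul_add]
          exact add_le_add ha' hb')
        (by
          intro w M hM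
          have hc2 := card_sub w
          exact ⟨(five_pos hk hd M hM).le, ih (n - 2) (by omega) _ M (by omega) hM⟩)
      obtain ⟨hD5, hDz⟩ := hD
      set d := (G.neighborSet v).ncard with hdd
      have e5 : (chr G).eval 5 = (5 - d) * (chr H).eval 5 + D.eval 5 := by
        rw [hGD, eval_add, eval_mul, eval_sub, eval_X, eval_C]
      have ez : aeval z (chr G) = (z - d) * aeval z (chr H) + aeval z D := by
        rw [hGD, map_add, map_mul, map_sub, aeval_X, aeval_C, map_natCast]
      have hHn : ‖aeval z (chr H)‖ ≤ x ^ (n - 1) * (chr H).eval 5 := by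
        have h1 : aeval z (chr H) = (aeval z (chr H) - (((chr H).eval 5 : ℝ) : ℂ)) +
            (((chr H).eval 5 : ℝ) : ℂ) := by ring
        rw [h1]
        refine (norm_add_le _ _).trans ?_
        rw [Complex.norm_real, Real.norm_of_nonneg hH5.le]
        linarith
      have split : aeval z (chr G) - (((chr G).eval 5 : ℝ) : ℂ) =
          (z - 5) * aeval z (chr H) +
            ((5 : ℂ) - d) * (aeval z (chr H) - (((chr H).eval 5 : ℝ) : ℂ)) +
            (aeval z D - ((D.eval 5 : ℝ) : ℂ)) := by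
        rw [ez, e5]
        push_cast
        ring
      have hb1 : ‖(z - 5) * aeval z (chr H)‖ ≤ ‖z - 5‖ * (x ^ (n - 1) * (chr H).eval 5) := by
        rw [norm_mul]
        exact mul_le_mul_of_nonneg_left hHn hδ
      have hnorm : ‖((5 : ℂ) - d)‖ = 5 - d := by
        have h1 : ((5 : ℂ) - d) = (((5 : ℝ) - d : ℝ) : ℂ) := by push_cast; ring
        have h2 : (0 : ℝ) ≤ 5 - d := by
          have : (d : ℝ) ≤ 5 := by exact_mod_cast hv
          linarith
        rw [h1, Complex.norm_real, Real.norm_of_nonneg h2]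
      have hb2 : ‖((5 : ℂ) - d) * (aeval z (chr H) - (((chr H).eval 5 : ℝ) : ℂ))‖ ≤
          (5 - d) * ((x ^ (n - 1) - 1) * (chr H).eval 5) := by
        rw [norm_mul, hnorm]
        refine mul_le_mul_of_nonneg_left hHz ?_
        have : (d : ℝ) ≤ 5 := by exact_mod_cast hv
        linarith
      have hsum : ‖aeval z (chr G) - (((chr G).eval 5 : ℝ) : ℂ)‖ ≤
          ‖z - 5‖ * (x ^ (n - 1) * (chr H).eval 5) +
          (5 - d) * ((x ^ (n - 1) - 1) * (chr H).eval 5) +
          (x ^ (n - 2) - 1) * D.eval 5 := by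
        rw [split]
        refine (norm_add_le _ _).trans (add_le_add ((norm_add_le _ _).trans (add_le_add hb1 hb2)) hDz)
      refine hsum.trans ?_
      have hxpos : ∀ k : ℕ, 0 < x ^ k := fun k => pow_pos (by linarith) k
      rcases lt_or_eq_of_le hv with hlt | heq
      · have hd4 : (d : ℝ) ≤ 4 := by
          have : d ≤ 4 := by omega
          exact_mod_cast this
        have hxn : x ^ n = x ^ (n - 1) * x := by
          rw [← pow_succ]
          congr 1
          omega
        have hle : x ^ (n - 2) ≤ x ^ n := pow_le_pow_right₀ hx (by omega)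
        rw [e5]
        have k1 : ‖z - 5‖ * (x ^ (n - 1) * (chr H).eval 5) ≤
            (5 - d) * (‖z - 5‖ * (x ^ (n - 1) * (chr H).eval 5)) := by
          have : 0 ≤ ‖z - 5‖ * (x ^ (n - 1) * (chr H).eval 5) :=
            mul_nonneg hδ (mul_nonneg (hxpos _).le hH5.le)
          nlinarith
        have k2 : (1 + ‖z - 5‖) * x ^ (n - 1) ≤ x ^ n := by
          rw [hxn, mul_comm]
          exact mul_le_mul_of_nonneg_left hx1 (hxpos _).le
        have k3 : (5 - (d : ℝ)) * (((1 + ‖z - 5‖) * x ^ (n - 1) - 1) * (chr H).eval 5) ≤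
            (5 - d) * ((x ^ n - 1) * (chr H).eval 5) := by
          apply mul_le_mul_of_nonneg_left _ (by linarith)
          apply mul_le_mul_of_nonneg_right _ hH5.le
          linarith
        have k4 : (x ^ (n - 2) - 1) * D.eval 5 ≤ (x ^ n - 1) * D.eval 5 :=
          mul_le_mul_of_nonneg_right (by linarith) hD5
        nlinarith
      · have hd5 : (d : ℝ) = 5 := by exact_mod_cast heq
        have hK := kempe_eval hk G v hG heq
        rw [← hH] at hK
        rw [hd5] at e5 ⊢
        have e5' : (chr G).eval 5 = D.eval 5 := by linarith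
        have hG5 := five_pos hk hd G hG
        obtain ⟨m, rfl⟩ : ∃ m, n = m + 2 := by
          refine ⟨n - 2, ?_⟩
          have h1 : 1 < Nat.card V := by
            have h2 : (G.neighborSet v).ncard ≤ Nat.card V := by
              rw [← Set.ncard_univ]
              exact Set.ncard_le_ncard (Set.subset_univ _)
            omega
          omega
        have s1 : m + 2 - 1 = m + 1 := by omega
        have s2 : m + 2 - 2 = m := by omega
        rw [s1, s2, ← e5']
        have k1 : ‖z - 5‖ * (x ^ (m + 1) * (chr H).eval 5) ≤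
            ‖z - 5‖ * (x ^ (m + 1) * (2 * (chr G).eval 5)) :=
          mul_le_mul_of_nonneg_left (mul_le_mul_of_nonneg_left hK (hxpos _).le) hδ
        have k2 : x ^ m * (1 + 2 * ‖z - 5‖ * x) ≤ x ^ m * x ^ 2 :=
          mul_le_mul_of_nonneg_left hx2 (hxpos _).le
        have k3 : (x ^ m * (1 + 2 * ‖z - 5‖ * x) - 1) * (chr G).eval 5 ≤
            (x ^ m * x ^ 2 - 1) * (chr G).eval 5 :=
          mul_le_mul_of_nonneg_right (by linarith) hG5.le
        have k4 : x ^ (m + 2) = x ^ m * x ^ 2 := pow_add x m 2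
        have k5 : x ^ (m + 1) = x ^ m * x := pow_succ x m
        rw [k4]
        rw [k5] at k1 ⊢
        nlinarith

theorem exp_cond (δ : ℝ) (hδ : 0 ≤ δ) :
    1 + δ ≤ Real.exp δ ∧ 1 + 2 * δ * Real.exp δ ≤ Real.exp δ ^ 2 := by
  have h1 : 1 + δ ≤ Real.exp δ := by
    have := Real.add_one_le_exp δ
    linarith
  refine ⟨h1, ?_⟩
  have h2 : δ ≤ Real.sinh δ := Real.self_le_sinh_iff.2 hδ
  rw [Real.sinh_eq] at h2
  have h3 : Real.exp δ * Real.exp (-δ) = 1 := by
    rw [← Real.exp_add]
    simp
  have h4 : 0 < Real.exp δ := Real.exp_pos δ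
  have h5 : 2 * δ ≤ Real.exp δ - Real.exp (-δ) := by linarith
  have h6 := mul_le_mul_of_nonneg_left h5 h4.le
  nlinarith

theorem cpx_ne (hk : S_KEMPE) (hd : S_DEG) {V : Type} [Finite V] (G : SimpleGraph V)
    (hG : ¬ WK V G) (z : ℂ) (hz : ‖z - 5‖ < Real.log 2 / Nat.card V) :
    aeval z (chr G) ≠ 0 := by
  intro h0
  have hδ : 0 ≤ ‖z - 5‖ := norm_nonneg _
  obtain ⟨h1, h2⟩ := exp_cond ‖z - 5‖ hδ
  have h3 := cpx_main hk hd z (Real.exp ‖z - 5‖) h1 h2 _ V G rfl hG
  have h5 := five_pos hk hd G hG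
  rw [h0, zero_sub, norm_neg, Complex.norm_real, Real.norm_of_nonneg h5.le] at h3
  have hcard : (0 : ℝ) < Nat.card V := by
    rcases Nat.eq_zero_or_pos (Nat.card V) with h | h
    · rw [h] at hz
      simp at hz
      exact absurd hz (not_lt.2 hδ)
    · exact_mod_cast h
  have h6 : Real.exp ‖z - 5‖ ^ (Nat.card V) < 2 := by
    rw [← Real.exp_nat_mul]
    rw [lt_div_iff₀ hcard] at hz
    calc Real.exp (Nat.card V * ‖z - 5‖) < Real.exp (Real.log 2) := by
          apply Real.exp_lt_exp.2
          linarith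
      _ = 2 := Real.exp_log (by norm_num)
  nlinarith

end Pool.Agent.Y865.RF
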