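import Pool.Agent.Y865.RF.Stm

/-!
Expansion of the chromatic polynomial at a vertex.
-/

set_option autoImplicit false
set_option linter.unusedSectionVars false

namespace Pool.Agent.Y865.RF

open Polynomial Pool.Agent.H207R2.BL

theorem diff_good (𝒞 : ∀ V : Type, SimpleGraph V → Prop) (h𝒞 : MinorClosed 𝒞)
    (Good : ℝ[X] → Prop) (h0 : Good 0) (hadd : ∀ a b, Good a → Good b → Good (a + b))
    {V : Type} [Finite V]
    (hM : ∀ (v : V) (M : SimpleGraph {x : V // x ≠ v}), 𝒞 _ M → Good (chr M))
    (K K' : SimpleGraph V) (hK : K ≤ K') (hK' : 𝒞 V K') : Good (chr K - chr K') := by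
  classical
  induction hN : Nat.card {e : Sym2 V // e ∈ K'.edgeSet ∧ e ∉ K.edgeSet}
    using Nat.strong_induction_on generalizing K' with
  | _ N ih =>
    subst hN
    by_cases heq : K' ≤ K
    · rw [le_antisymm hK heq, sub_self]
      exact h0
    · have : ∃ a b, K'.Adj a b ∧ ¬ K.Adj a b := by
        by_contra hcon
        push Not at hcon
        exact heq (fun a b h => hcon a b h)
      obtain ⟨a, b, hab, hnab⟩ := this
      let L : SimpleGraph V := K'.deleteEdges {s(a, b)}
      have hLadj : ∀ x y, L.Adj x y ↔ (K'.Adj x y ∧ s(x, y) ≠ s(a, b)) := by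
        intro x y
        simp [L]
      have hL : L ≤ K' := fun x y h => ((hLadj x y).1 h).1
      have hKL : K ≤ L := by
        intro x y h
        rw [hLadj]
        refine ⟨hK h, ?_⟩
        intro h'
        rcases Sym2.eq_iff.1 h' with ⟨rfl, rfl⟩ | ⟨rfl, rfl⟩
        · exact hnab h
        · exact hnab h.symm
      have hlt : Nat.card {e : Sym2 V // e ∈ L.edgeSet ∧ e ∉ K.edgeSet} <
          Nat.card {e : Sym2 V // e ∈ K'.edgeSet ∧ e ∉ K.edgeSet} := by
        have : Fintype V := Fintype.ofFinite V
        rw [Nat.card_eq_fintype_card, Nat.card_eq_fintype_card, Fintype.card_subtype,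
          Fintype.card_subtype]
        apply Finset.card_lt_card
        rw [Finset.ssubset_iff_of_subset]
        · refine ⟨s(a, b), ?_, ?_⟩
          · simp only [Finset.mem_filter, Finset.mem_univ, true_and]
            exact ⟨hab, hnab⟩
          · simp only [Finset.mem_filter, Finset.mem_univ, true_and]
            intro h
            exact ((hLadj a b).1 h.1).2 rfl
        · intro e he
          simp only [Finset.mem_filter, Finset.mem_univ, true_and] at he ⊢
          refine ⟨?_, he.2⟩
          have h1 := he.1
          induction e using Sym2.ind with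
          | _ x y => exact hL h1
      have h1 := ih _ hlt L hKL (h𝒞.edge V K' L hL hK') rfl
      have hne : a ≠ b := hab.ne
      have h2 := del_con K' L a b hne (fun h => ((hLadj b a).1 h).2 Sym2.eq_swap) (by
        intro x y
        rw [hLadj]
        constructor
        · intro h
          by_cases h' : s(x, y) = s(a, b)
          · rcases Sym2.eq_iff.1 h' with ⟨rfl, rfl⟩ | ⟨rfl, rfl⟩
            · exact Or.inr (Or.inl ⟨rfl, rfl⟩)
            · exact Or.inr (Or.inr ⟨rfl, rfl⟩)
          · exact Or.inl ⟨h, h'⟩
        · rintro (h | ⟨rfl, rfl⟩ | ⟨rfl, rfl⟩)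
          · exact h.1
          · exact hab
          · exact hab.symm)
      have h3 : 𝒞 _ (contract L a b) :=
        h𝒞.edge _ _ _ (contract_mono hL a b) (h𝒞.contr V K' a b hab hK')
      have h4 := hM b _ h3
      have h5 : chr K - chr K' = (chr K - chr L) + chr (contract L a b) := by
        rw [h2]
        ring
      rw [h5]
      exact hadd _ _ h1 h4

theorem exp_at : S_EXP := by
  intro 𝒞 h𝒞 V _ G v hG Good h0 hadd hM
  classical
  set H : SimpleGraph {x : V // x ≠ v} := G.comap Subtype.val with hH
  have key : ∀ S : Finset V, (∀ x ∈ S, G.Adj v x) → ∃ D : ℝ[X], Good D ∧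
      chr (keep G v (S : Set V)) = (X - C (S.card : ℝ)) * chr H + D := by
    intro S
    induction S using Finset.induction_on with
    | empty =>
      intro _
      have h1 := chr_isolated (keep G v ((∅ : Finset V) : Set V)) v (by
        intro x h
        have := h.2.1 rfl
        simp at this)
      have h2 : (keep G v ((∅ : Finset V) : Set V)).comap
          (Subtype.val : {x : V // x ≠ v} → V) = H := by
        ext x y
        constructor
        · intro h
          exact h.1
        · intro h
          exact ⟨h, fun h' => absurd h' x.2, fun h' => absurd h' y.2⟩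
      refine ⟨0, h0, ?_⟩
      rw [h1, h2]
      simp
    | insert u S hu ihS =>
      intro hS
      have hGu : G.Adj v u := hS u (Finset.mem_insert_self u S)
      obtain ⟨D, hD, hkS⟩ := ihS (fun x hx => hS x (Finset.mem_insert_of_mem hx))
      have huv : u ≠ v := hGu.ne'
      have h2 := del_con (keep G v ((insert u S : Finset V) : Set V))
        (keep G v (S : Set V)) u v huv (by
          intro h
          exact hu (by simpa using h.2.1 rfl)) (by
          intro x y
          constructor
          · rintro ⟨h3, h4, h5⟩
            by_cases hx : x = v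
            · subst hx
              have h6 := h4 rfl
              rw [Finset.coe_insert, Set.mem_insert_iff] at h6
              rcases h6 with h6 | h6
              · exact Or.inr (Or.inr ⟨rfl, h6⟩)
              · exact Or.inl ⟨h3, fun _ => h6, fun h => absurd h h3.ne'⟩
            · by_cases hy : y = v
              · subst hy
                have h6 := h5 rfl
                rw [Finset.coe_insert, Set.mem_insert_iff] at h6
                rcases h6 with h6 | h6
                · exact Or.inr (Or.inl ⟨h6, rfl⟩)
                · exact Or.inl ⟨h3, fun h => absurd h hx, fun _ => h6⟩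
              · exact Or.inl ⟨h3, fun h => absurd h hx, fun h => absurd h hy⟩
          · rintro (⟨h3, h4, h5⟩ | ⟨rfl, rfl⟩ | ⟨rfl, rfl⟩)
            · refine ⟨h3, fun h => ?_, fun h => ?_⟩
              · rw [Finset.coe_insert]
                exact Set.mem_insert_of_mem _ (h4 h)
              · rw [Finset.coe_insert]
                exact Set.mem_insert_of_mem _ (h5 h)
            · refine ⟨hGu.symm, fun h => absurd h huv, fun _ => ?_⟩
              simp
            · refine ⟨hGu, fun _ => ?_, fun h => absurd h huv⟩
              simp)
      have h4 : H ≤ contract (keep G v (S : Set V)) u v := by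
        intro x y h
        refine ⟨fun h' => h.ne h', Or.inl ⟨h, fun h' => absurd h' x.2, fun h' => absurd h' y.2⟩⟩
      have h5 : 𝒞 _ (contract (keep G v (S : Set V)) u v) := by
        refine h𝒞.edge _ (contract (keep G v ((insert u S : Finset V) : Set V)) u v) _
          (contract_mono ?_ u v) ?_
        · rintro _ _ ⟨a1, a2, a3⟩
          refine ⟨a1, fun h => ?_, fun h => ?_⟩
          · rw [Finset.coe_insert]
            exact Set.mem_insert_of_mem _ (a2 h)
          · rw [Finset.coe_insert]
            exact Set.mem_insert_of_mem _ (a3 h)
        · refine h𝒞.contr _ _ u v ?_ (h𝒞.edge V G _ (fun _ _ h => h.1) hG)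
          refine ⟨hGu.symm, fun h => absurd h huv, fun _ => ?_⟩
          simp
      have h6 : Good (chr H - chr (contract (keep G v (S : Set V)) u v)) :=
        diff_good 𝒞 h𝒞 Good h0 hadd hM H _ h4 h5
      refine ⟨D + (chr H - chr (contract (keep G v (S : Set V)) u v)), hadd _ _ hD h6, ?_⟩
      rw [Finset.card_insert_of_notMem hu, Nat.cast_add, Nat.cast_one, C_add, C_1]
      rw [hkS] at h2
      linear_combination -h2
  have hfin : (G.neighborSet v).Finite := Set.toFinite _
  obtain ⟨D, hD, h7⟩ := key hfin.toFinset (by
    intro x hx
    simpa using hx)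
  have h8 : keep G v (hfin.toFinset : Set V) = G := by
    ext x y
    constructor
    · intro h
      exact h.1
    · intro h
      refine ⟨h, fun h' => ?_, fun h' => ?_⟩
      · subst h'
        simpa using h
      · subst h'
        simpa using h.symm
  rw [h8] at h7
  refine ⟨D, hD, ?_⟩
  rw [h7, Set.ncard_eq_toFinset_card _ hfin]

end Pool.Agent.Y865.RF
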