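import Pool.Agent.Y865.RF.Stm

/-!
Planar graphs have no weak `K₅`; graphs without weak `K₅` are closed under minors.
-/

set_option autoImplicit false

namespace Pool.Agent.Y865.RF

open Polynomial Pool.Agent.H207R2.BL

theorem Cn.mono {V : Type} {G : SimpleGraph V} {S T : Set V} (h : S ⊆ T) {u v : V}
    (p : Cn G S u v) : Cn G T u v := by
  obtain ⟨w, hw⟩ := p
  exact ⟨w, fun z hz => h (hw z hz)⟩

theorem Cn.trans {V : Type} {G : SimpleGraph V} {S : Set V} {u v w : V}
    (p : Cn G S u v) (q : Cn G S v w) : Cn G S u w := by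
  obtain ⟨a, ha⟩ := p
  obtain ⟨b, hb⟩ := q
  refine ⟨a.append b, fun z hz => ?_⟩
  rw [SimpleGraph.Walk.mem_support_append_iff] at hz
  exact hz.elim (ha z) (hb z)

theorem Cn.symm {V : Type} {G : SimpleGraph V} {S : Set V} {u v : V}
    (p : Cn G S u v) : Cn G S v u := by
  obtain ⟨a, ha⟩ := p
  refine ⟨a.reverse, fun z hz => ?_⟩
  rw [SimpleGraph.Walk.support_reverse, List.mem_reverse] at hz
  exact ha z hz

theorem Cn.refl {V : Type} {G : SimpleGraph V} {S : Set V} {u : V} (h : u ∈ S) : Cn G S u u :=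
  ⟨SimpleGraph.Walk.nil, fun z hz => by
    rw [SimpleGraph.Walk.support_nil, List.mem_singleton] at hz
    exact hz ▸ h⟩

theorem Cn.adj {V : Type} {G : SimpleGraph V} {S : Set V} {u v : V} (h : G.Adj u v)
    (hu : u ∈ S) (hv : v ∈ S) : Cn G S u v :=
  ⟨SimpleGraph.Walk.cons h SimpleGraph.Walk.nil, fun z hz => by
    rw [SimpleGraph.Walk.support_cons, SimpleGraph.Walk.support_nil] at hz
    simp only [List.mem_cons, List.not_mem_nil, or_false] at hz
    rcases hz with rfl | rfl
    · exact hu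
    · exact hv⟩

/-- transport of connections along a map -/
theorem Cn.transport {V W : Type} {G : SimpleGraph V} {H : SimpleGraph W} {S : Set V} {T : Set W}
    (φ : V → W) (h : ∀ x y, x ∈ S → y ∈ S → G.Adj x y → Cn H T (φ x) (φ y))
    (hm : ∀ x ∈ S, φ x ∈ T) {u v : V} (p : Cn G S u v) : Cn H T (φ u) (φ v) := by
  obtain ⟨w, hw⟩ := p
  induction w with
  | nil => exact Cn.refl (hm _ (hw _ (by simp)))
  | @cons a b c hab w ih =>
    exact (h a b (hw a (by simp)) (hw b (by simp)) hab).trans (ih (fun z hz => hw z (by simp [hz])))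

theorem pl : S_PL := by
  intro V G f γ h hK
  obtain ⟨x, A, hA, hd⟩ := hK
  let c : ℝ × ℝ → ℂ := fun z => ⟨z.1, z.2⟩
  have hcc : Continuous c := Complex.equivRealProdCLM.symm.continuous
  have hci : Function.Injective c := by
    intro a b hab
    have h1 := congrArg Complex.re hab
    have h2 := congrArg Complex.im hab
    exact Prod.ext h1 h2
  refine Pool.Agent.Helper479.Bond.VK.k5_joined (fun i => c (f (x i)))
    (fun a b => c '' Dr G f γ (A a b)) ?_ ?_
  · intro a b hab
    obtain ⟨w, hw⟩ := hA a b hab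
    have hj := Dr_joined h (A a b) w hw
    refine ⟨hj.somePath.map hcc, ?_⟩
    intro t
    exact ⟨_, hj.somePath_mem t, rfl⟩
  · intro a b c' d hab hcd h1 h2 h3 h4
    rw [Set.disjoint_left]
    rintro z ⟨y, hy, rfl⟩ ⟨y', hy', hyy⟩
    have := hci hyy
    subst this
    exact Dr_disjoint h (A a b) (A c' d)
      (fun v hv hv' => Set.disjoint_left.1 (hd a b c' d hab hcd h1 h2 h3 h4) hv hv') _ hy hy'

theorem wk_of_map {V W : Type} {G : SimpleGraph V} {H : SimpleGraph W} (ψ : W → V)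
    (φ : V → W) (hψ : ∀ x, ψ (φ x) = x)
    (h : ∀ x y, G.Adj x y → Cn H (ψ ⁻¹' {x, y}) (φ x) (φ y)) (hG : WK V G) : WK W H := by
  obtain ⟨x, A, hA, hd⟩ := hG
  refine ⟨fun i => φ (x i), fun a b => ψ ⁻¹' (A a b), ?_, ?_⟩
  · intro a b hab
    refine (hA a b hab).transport φ ?_ ?_
    · intro y z hy hz hyz
      refine (h y z hyz).mono ?_
      intro w hw
      rcases hw with hw | hw
      · change ψ w ∈ A a b
        rw [hw]
        exact hy
      · change ψ w ∈ A a b
        rw [Set.mem_singleton_iff.1 hw]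
        exact hz
    · intro y hy
      change ψ (φ y) ∈ A a b
      rw [hψ]
      exact hy
  · intro a b c d hab hcd h1 h2 h3 h4
    exact (hd a b c d hab hcd h1 h2 h3 h4).preimage ψ

theorem wk_le {V : Type} {G H : SimpleGraph V} (h : H ≤ G) (hH : WK V H) : WK V G :=
  wk_of_map id id (fun _ => rfl) (fun x y hxy => Cn.adj (h hxy) (by simp) (by simp)) hH

theorem wk_vertex {V : Type} (G : SimpleGraph V) (v : V)
    (h : WK {x : V // x ≠ v} (G.comap Subtype.val)) : WK V G := by
  obtain ⟨x, A, hA, hd⟩ := h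
  refine ⟨fun i => (x i).1, fun a b => Subtype.val '' (A a b), ?_, ?_⟩
  · intro a b hab
    refine (hA a b hab).transport Subtype.val ?_ ?_
    · intro y z hy hz hyz
      exact Cn.adj hyz ⟨y, hy, rfl⟩ ⟨z, hz, rfl⟩
    · intro y hy
      exact ⟨y, hy, rfl⟩
  · intro a b c d hab hcd h1 h2 h3 h4
    rw [Set.disjoint_left]
    rintro z ⟨y, hy, rfl⟩ ⟨y', hy', hyy⟩
    have := Subtype.ext hyy
    subst this
    exact Set.disjoint_left.1 (hd a b c d hab hcd h1 h2 h3 h4) hy hy'

theorem wk_contr {V : Type} (G : SimpleGraph V) (u v : V) (huv : G.Adj u v)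
    (h : WK {x : V // x ≠ v} (contract G u v)) : WK V G := by
  classical
  let ψ : V → {x : V // x ≠ v} := fun y => if hy : y = v then ⟨u, huv.ne⟩ else ⟨y, hy⟩
  have hψv : ψ v = ⟨u, huv.ne⟩ := by simp [ψ]
  have hψ : ∀ x : {x : V // x ≠ v}, ψ x.1 = x := by
    intro x
    simp [ψ, x.2]
  refine wk_of_map ψ Subtype.val hψ ?_ h
  rintro x y ⟨hne, hxy⟩
  have hx : x.1 ∈ ψ ⁻¹' {x, y} := by
    rw [Set.mem_preimage, hψ]
    simp
  have hy : y.1 ∈ ψ ⁻¹' {x, y} := by
    rw [Set.mem_preimage, hψ]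
    simp
  rcases hxy with hxy | ⟨hxu, hvy⟩ | ⟨hyu, hvx⟩
  · exact Cn.adj hxy hx hy
  · have hv : v ∈ ψ ⁻¹' {x, y} := by
      rw [Set.mem_preimage, hψv]
      left
      exact Subtype.ext hxu.symm
    refine (Cn.adj ?_ hx hv).trans (Cn.adj hvy hv hy)
    rw [hxu]
    exact huv
  · have hv : v ∈ ψ ⁻¹' {x, y} := by
      rw [Set.mem_preimage, hψv]
      right
      exact Subtype.ext hyu.symm
    refine (Cn.adj hvx.symm hx hv).trans (Cn.adj ?_ hv hy)
    rw [hyu]
    exact huv.symm

theorem mc : S_MC where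
  edge := fun V G H h hG hH => hG (wk_le h hH)
  vertex := fun V G v hG h => hG (wk_vertex G v h)
  contr := fun V G u v huv hG h => hG (wk_contr G u v huv h)

end Pool.Agent.Y865.RF
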