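import Pool.Agent.Y865.RF.PL
import Pool.Agent.Y865.RF.Exp

/-!
The main induction: values of the chromatic polynomial near five.
-/

set_option autoImplicit false
set_option linter.unusedSectionVars false

namespace Pool.Agent.Y865.RF

open Polynomial Pool.Agent.H207R2.BL

theorem chr_empty {V : Type} [Finite V] [he : IsEmpty V] (G : SimpleGraph V) : chr G = 1 := by
  refine (eq_chr (p := (1 : ℝ[X])) ?_).symm
  intro k
  rw [card_colorings]
  have : Nat.card {g : V → Fin k // Proper G g} = 1 := by
    rw [Nat.card_eq_one_iff_unique]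
    refine ⟨⟨fun a b => Subtype.ext (funext fun x => (he.false x).elim)⟩,
      ⟨fun x => (he.false x).elim, fun a => (he.false a).elim⟩⟩
  rw [this]
  simp

theorem card_sub {V : Type} [Finite V] (v : V) : Nat.card {x : V // x ≠ v} + 1 = Nat.card V := by
  classical
  have : Fintype V := Fintype.ofFinite V
  rw [Nat.card_eq_fintype_card, Nat.card_eq_fintype_card, Fintype.card_subtype_compl]
  have h1 : Fintype.card {x : V // x = v} = 1 := Fintype.card_unique
  have h2 : 0 < Fintype.card V := Fintype.card_pos_iff.2 ⟨v⟩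
  omega

theorem chr_eval_nat {V : Type} [Finite V] (G : SimpleGraph V) (k : ℕ) :
    (chr G).eval (k : ℝ) = (Nat.card {g : V → Fin k // Proper G g} : ℝ) := by
  rw [chr_spec G k, card_colorings]

/-- Kempe bound for the values at five. -/
theorem kempe_eval (hk : S_KEMPE) {V : Type} [Finite V] (G : SimpleGraph V) (v : V)
    (hG : ¬ WK V G) (hv : (G.neighborSet v).ncard = 5) :
    (chr (G.comap (Subtype.val : {x : V // x ≠ v} → V))).eval 5 ≤ 2 * (chr G).eval 5 := by
  have h := hk V G v hG hv
  have h1 := chr_eval_nat G 5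
  have h2 := chr_eval_nat (G.comap (Subtype.val : {x : V // x ≠ v} → V)) 5
  rw [Nat.cast_ofNat] at h1 h2
  rw [h1, h2]
  exact_mod_cast h

theorem real_main (hk : S_KEMPE) (hd : S_DEG) (δ : ℝ) (hδ : 0 ≤ δ) :
    ∀ (n : ℕ) (V : Type) [Finite V] (G : SimpleGraph V), Nat.card V = n → ¬ WK V G →
      0 < (chr G).eval 5 ∧ (n * δ ≤ 1 →
        (1 - n * δ) * (chr G).eval 5 ≤ (chr G).eval (5 - δ) ∧
        (chr G).eval (5 - δ) ≤ (chr G).eval 5) := by
  intro n
  induction n using Nat.strong_induction_on with
  | _ n ih =>
    intro V _ G hn hG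
    rcases isEmpty_or_nonempty V with he | hne
    · rw [chr_empty]
      have h0 : n = 0 := by
        rw [← hn]
        exact Nat.card_of_isEmpty
      subst h0
      simp
    · obtain ⟨v, hv⟩ := hd V G hG
      have hc := card_sub v
      have hn1 : 1 ≤ n := by omega
      set H : SimpleGraph {x : V // x ≠ v} := G.comap Subtype.val with hH
      have hHW : ¬ WK _ H := mc.vertex V G v hG
      obtain ⟨hH5, hHq⟩ := ih (n - 1) (by omega) _ H (by omega) hHW
      have hcast1 : ((n - 1 : ℕ) : ℝ) = (n : ℝ) - 1 := by
        rw [Nat.cast_sub hn1, Nat.cast_one]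
      rw [hcast1] at hHq
      -- expansion with the property needed
      obtain ⟨D, hD, hGD⟩ := exp_at (fun V G => ¬ WK V G) mc V G v hG
        (fun p => 0 ≤ p.eval 5 ∧ (n * δ ≤ 1 → (1 - ((n : ℝ) - 2) * δ) * p.eval 5 ≤ p.eval (5 - δ) ∧
          p.eval (5 - δ) ≤ p.eval 5)) (by simp)
        (by
          rintro a b ⟨ha, ha'⟩ ⟨hb, hb'⟩
          refine ⟨by rw [eval_add]; exact add_nonneg ha hb, fun h => ?_⟩
          obtain ⟨h1, h2⟩ := ha' h
          obtain ⟨h3, h4⟩ := hb' h
          rw [eval_add, eval_add]
          constructor <;> linarith)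
        (by
          intro w M hM
          have hc2 := card_sub w
          have hn2 : 2 ≤ n := by omega
          obtain ⟨h1, h2⟩ := ih (n - 2) (by omega) _ M (by omega) hM
          have hcast2 : ((n - 2 : ℕ) : ℝ) = (n : ℝ) - 2 := by
            rw [Nat.cast_sub hn2, Nat.cast_ofNat]
          rw [hcast2] at h2
          refine ⟨h1.le, fun h => h2 ?_⟩
          nlinarith)
      obtain ⟨hD5, hDq⟩ := hD
      set d := (G.neighborSet v).ncard with hdd
      have e5 : (chr G).eval 5 = (5 - d) * (chr H).eval 5 + D.eval 5 := by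
        rw [hGD, eval_add, eval_mul, eval_sub, eval_X, eval_C]
      have eq : (chr G).eval (5 - δ) = (5 - δ - d) * (chr H).eval (5 - δ) + D.eval (5 - δ) := by
        rw [hGD, eval_add, eval_mul, eval_sub, eval_X, eval_C]
      rcases lt_or_eq_of_le hv with hlt | heq
      · -- degree at most four
        have hd4 : (d : ℝ) ≤ 4 := by
          have : d ≤ 4 := by omega
          exact_mod_cast this
        have hd0 : (0 : ℝ) ≤ d := Nat.cast_nonneg _
        have hpos : 0 < (chr G).eval 5 := by
          rw [e5]
          nlinarith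
        refine ⟨hpos, fun h => ?_⟩
        have hn1' : (1 : ℝ) ≤ n := by exact_mod_cast hn1
        have hδ1 : δ ≤ 1 := by nlinarith
        obtain ⟨h1, h2⟩ := hHq (by nlinarith)
        obtain ⟨h3, h4⟩ := hDq h
        have h5 : 0 ≤ 1 - ((n : ℝ) - 1) * δ := by nlinarith
        have h6 : 0 ≤ (chr H).eval (5 - δ) := le_trans (mul_nonneg h5 hH5.le) h1
        rw [e5, eq]
        constructor
        · have h7 : (1 - n * δ) * ((5 - d) * (chr H).eval 5) ≤
              (5 - δ - d) * (chr H).eval (5 - δ) := by
            have h8 : (5 - δ - d) * ((1 - ((n : ℝ) - 1) * δ) * (chr H).eval 5) ≤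
                (5 - δ - d) * (chr H).eval (5 - δ) :=
              mul_le_mul_of_nonneg_left h1 (by linarith)
            refine le_trans ?_ h8
            have h9 : (1 - n * δ) * (5 - d) ≤ (5 - δ - d) * (1 - ((n : ℝ) - 1) * δ) := by
              have h10 : δ * (1 - ((n : ℝ) - 1) * δ) ≤ δ * 1 :=
                mul_le_mul_of_nonneg_left (by nlinarith) hδ
              nlinarith
            calc (1 - n * δ) * ((5 - d) * (chr H).eval 5)
                = ((1 - n * δ) * (5 - d)) * (chr H).eval 5 := by ring
              _ ≤ ((5 - δ - d) * (1 - ((n : ℝ) - 1) * δ)) * (chr H).eval 5 :=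
                mul_le_mul_of_nonneg_right h9 hH5.le
              _ = (5 - δ - d) * ((1 - ((n : ℝ) - 1) * δ) * (chr H).eval 5) := by ring
          have h11 : (1 - n * δ) * D.eval 5 ≤ D.eval (5 - δ) := by
            refine le_trans ?_ h3
            apply mul_le_mul_of_nonneg_right _ hD5
            linarith
          rw [mul_add]
          linarith
        · have h12 : (5 - δ - d) * (chr H).eval (5 - δ) ≤ (5 - d) * (chr H).eval 5 :=
            mul_le_mul (by linarith) h2 h6 (by linarith)
          linarith
      · -- degree five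
        have hd5 : (d : ℝ) = 5 := by exact_mod_cast heq
        have hK := kempe_eval hk G v hG heq
        rw [← hH] at hK
        rw [hd5] at e5 eq
        have hpos : 0 < (chr G).eval 5 := by linarith
        refine ⟨hpos, fun h => ?_⟩
        obtain ⟨h1, h2⟩ := hHq (by nlinarith)
        obtain ⟨h3, h4⟩ := hDq h
        have h5 : 0 ≤ 1 - ((n : ℝ) - 1) * δ := by nlinarith
        have h6 : 0 ≤ (chr H).eval (5 - δ) := le_trans (mul_nonneg h5 hH5.le) h1
        have e5' : (chr G).eval 5 = D.eval 5 := by linarith
        rw [← e5'] at h3 h4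
        rw [eq]
        have h7 : δ * (chr H).eval (5 - δ) ≤ δ * (2 * (chr G).eval 5) :=
          mul_le_mul_of_nonneg_left (by linarith) hδ
        have h8 : 0 ≤ δ * (chr H).eval (5 - δ) := mul_nonneg hδ h6
        constructor
        · nlinarith
        · nlinarith

end Pool.Agent.Y865.RF
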